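import Pool.Agent.Lead.Ek.Defs
import Pool.Agent.Helper22.Evas.Reduction

/-! # From a non-evasive invariant complex to the frozen statement -/

set_option autoImplicit false

namespace Pool.Agent.Lead.Ek

open Finset Pool.Agent.Helper22.Evas

theorem upd_false {α : Type} [DecidableEq α] [Fintype α] (x : α → Bool) (i : α) :
    univ.filter (fun j => Function.update x i false j = true) =
      (univ.filter (fun j => x j = true)).erase i := by
  ext j
  by_cases h : j = i
  · subst h; simp
  · simp [h]

theorem upd_true {α : Type} [DecidableEq α] [Fintype α] (x : α → Bool) (i : α) :
    univ.filter (fun j => Function.update x i true j = true) =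
      insert i (univ.filter (fun j => x j = true)) := by
  ext j
  by_cases h : j = i
  · subst h; simp
  · simp [h]

/-- Depth of a function that only depends on the variables in `R`. -/
theorem depth_aux {α : Type} [DecidableEq α] [Fintype α] (R : Finset α)
    (g : (α → Bool) → Bool) (hg : ∀ x y : α → Bool, (∀ i ∈ R, x i = y i) → g x = g y) :
    Depth R.card g := by
  classical
  induction R using Finset.induction_on generalizing g with
  | empty => exact Depth.const _ _ fun x y => hg x y (by simp)
  | insert i R hi ih =>
    rw [Finset.card_insert_of_notMem hi]
    refine Depth.node _ _ i (ih _ ?_) (ih _ ?_)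
    · intro x y hxy
      apply hg
      intro j hj
      by_cases h : j = i
      · subst h; simp
      · rw [Function.update_of_ne h, Function.update_of_ne h]
        exact hxy j ((Finset.mem_insert.mp hj).resolve_left h)
    · intro x y hxy
      apply hg
      intro j hj
      by_cases h : j = i
      · subst h; simp
      · rw [Function.update_of_ne h, Function.update_of_ne h]
        exact hxy j ((Finset.mem_insert.mp hj).resolve_left h)

theorem ne_depth {α : Type} [DecidableEq α] [Fintype α] {K : Set (Finset α)} {R : Finset α}
    (h : NE K R) : ∀ g : (α → Bool) → Bool,
    (∀ x, (g x = true ↔ (univ.filter (fun i => x i = true)) ∩ R ∉ K)) →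
    Depth (R.card - 1) g := by
  induction h with
  | irr K R x hx h =>
    intro g hg
    rw [← Finset.card_erase_of_mem hx]
    apply depth_aux
    intro y z hyz
    have key : ∀ y : α → Bool, (g y = true ↔
        (univ.filter (fun i => y i = true)) ∩ (R.erase x) ∉ K) := by
      intro y
      rw [hg]
      by_cases hy : y x = true
      · have e : (univ.filter (fun i => y i = true)) ∩ R =
            insert x ((univ.filter (fun i => y i = true)) ∩ (R.erase x)) := by
          ext j
          by_cases hj : j = x
          · subst hj; simp [hy, hx]
          · simp [hj]
        rw [e, ← h _ Finset.inter_subset_right]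
      · have e : (univ.filter (fun i => y i = true)) ∩ R =
            (univ.filter (fun i => y i = true)) ∩ (R.erase x) := by
          ext j
          by_cases hj : j = x
          · subst hj; simp [hy]
          · simp [hj]
        rw [e]
    have e : (univ.filter (fun i => y i = true)) ∩ (R.erase x) =
        (univ.filter (fun i => z i = true)) ∩ (R.erase x) := by
      ext j
      simp only [mem_inter, mem_filter, mem_univ, true_and]
      constructor
      · rintro ⟨h1, h2⟩; exact ⟨by rw [← hyz j h2]; exact h1, h2⟩
      · rintro ⟨h1, h2⟩; exact ⟨by rw [hyz j h2]; exact h1, h2⟩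
    rw [Bool.eq_iff_iff, key, key, e]
  | split K R x hx h0 h1 ih0 ih1 =>
    intro g hg
    have hR : R.card - 1 = ((R.erase x).card - 1) + 1 := by
      have h2 : 0 < (R.erase x).card := by
        cases h0 with
        | irr _ _ y hy _ => exact Finset.card_pos.mpr ⟨y, hy⟩
        | split _ _ y hy _ _ => exact Finset.card_pos.mpr ⟨y, hy⟩
      have h3 := Finset.card_erase_of_mem hx
      omega
    rw [hR]
    refine Depth.node _ _ x (ih0 _ ?_) (ih1 _ ?_)
    · intro y
      rw [hg, upd_false]
      have e : (univ.filter (fun i => y i = true)).erase x ∩ R =
          (univ.filter (fun i => y i = true)) ∩ (R.erase x) := by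
        ext j
        simp only [mem_inter, mem_erase]
        tauto
      rw [e]
    · intro y
      rw [hg, upd_true]
      have e : insert x (univ.filter (fun i => y i = true)) ∩ R =
          insert x ((univ.filter (fun i => y i = true)) ∩ (R.erase x)) := by
        ext j
        by_cases hj : j = x
        · subst hj; simp [hx]
        · simp [hj]
      rw [e]
      rfl

theorem final_of_NE {G : Type} [Group G] [Fintype G] [DecidableEq G] {K : Set (Finset G)}
    (hK : Cx K) (hI : LInv K) (h0 : ∅ ∈ K) (hu : univ ∉ K) (hNE : NE K univ) :
    ∃ (m : ℕ) (_ : 2 ≤ m) (f : (Fin m → Bool) → Bool), Good f (m - 1) := by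
  classical
  let f : (G → Bool) → Bool := fun x => decide (univ.filter (fun i => x i = true) ∉ K)
  have hd : Depth (Fintype.card G - 1) f := by
    have := ne_depth hNE f (by intro x; simp [f])
    rwa [Finset.card_univ] at this
  have hf : Good f (Fintype.card G - 1) := by
    refine ⟨?_, ?_, ?_, ?_, hd⟩
    · intro x y hxy
      by_cases hx : univ.filter (fun i => x i = true) ∈ K
      · have : f x = false := by simp [f, hx]
        rw [this]; exact Bool.false_le _
      · have hy : univ.filter (fun i => y i = true) ∉ K := by
          intro hy
          apply hx
          refine hK _ hy _ ?_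
          intro j hj
          simp only [mem_filter, mem_univ, true_and] at hj ⊢
          have := hxy j
          rw [hj] at this
          exact Bool.eq_true_of_true_le this
        have : f y = true := by simp [f, hy]
        rw [this]; exact Bool.le_true _
    · simp [f, h0]
    · simp [f, hu]
    · intro i j
      refine ⟨Equiv.mulLeft (j * i⁻¹), by simp, fun x => ?_⟩
      have key : ∀ (g : G) (x : G → Bool), univ.filter (fun i => x i = true) ∈ K →
          univ.filter (fun i => (x ∘ Equiv.mulLeft g) i = true) ∈ K := by
        intro g x hx
        have := hI g⁻¹ _ hx
        convert this using 1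
        ext k
        constructor
        · intro h
          have h2 : x (g * k) = true := (Finset.mem_filter.mp h).2
          exact Finset.mem_image.mpr ⟨g * k, Finset.mem_filter.mpr ⟨mem_univ _, h2⟩, by group⟩
        · intro h
          obtain ⟨a, ha, rfl⟩ := Finset.mem_image.mp h
          have h2 : x a = true := (Finset.mem_filter.mp ha).2
          refine Finset.mem_filter.mpr ⟨mem_univ _, ?_⟩
          change x (g * (g⁻¹ * a)) = true
          rw [mul_inv_cancel_left]; exact h2
      have key2 : univ.filter (fun k => (x ∘ Equiv.mulLeft (j * i⁻¹)) k = true) ∈ K ↔
          univ.filter (fun k => x k = true) ∈ K := by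
        constructor
        · intro h
          have := key (j * i⁻¹)⁻¹ _ h
          convert this using 1
          ext k
          simp [Function.comp]
        · exact key _ _
      simp only [f, key2]
  have hcard : 2 ≤ Fintype.card G := by
    cases hNE with
    | irr _ _ x hx h =>
      by_contra hlt
      have h1 : Fintype.card G = 1 := by
        have := Fintype.card_pos (α := G); omega
      have h2 : (univ : Finset G) = {x} := by
        obtain ⟨y, hy⟩ := Fintype.card_eq_one_iff.mp h1
        ext z; simp [hy z, hy x]
      have := (h ∅ (by simp)).mp h0
      rw [h2] at hu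
      exact hu (by simpa using this)
    | split _ _ x hx h0' h1' =>
      have h2 : 0 < (univ.erase x).card := by
        cases h0' with
        | irr _ _ y hy _ => exact Finset.card_pos.mpr ⟨y, hy⟩
        | split _ _ y hy _ _ => exact Finset.card_pos.mpr ⟨y, hy⟩
      rw [Finset.card_erase_of_mem hx, Finset.card_univ] at h2
      omega
  obtain ⟨e⟩ := Fintype.truncEquivFin G |>.nonempty
  exact ⟨Fintype.card G, hcard, transport e f, hf.transport e⟩

end Pool.Agent.Lead.Ek
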