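import Pool.Agent.Lead.Ek.Inv
import Pool.Agent.Lead.Ek.Link
import Pool.Agent.Helper83.Ek.N0

/-! # The symmetry group of the 13-vertex complex -/

set_option autoImplicit false

namespace Pool.Agent.Lead.Ek

open Finset Pool.Agent.Helper83.Ek

/-- Sixty symmetries, as image lists; the `k`-th one maps `T0` onto the `k`-th facet. -/
def perms : List (List Nat) :=
  [[0,1,2,3,4,5,6,7,8,9,10,11,12],
   [0,1,2,3,4,5,6,7,8,9,10,12,11],
   [4,2,3,0,1,5,10,6,7,8,9,11,12],
   [4,2,3,0,1,5,10,6,7,8,9,12,11],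
   [3,1,4,0,2,5,10,9,8,7,6,11,12],
   [3,1,4,0,2,5,10,9,8,7,6,12,11],
   [1,0,3,2,4,5,7,6,10,9,8,11,12],
   [1,0,3,2,4,5,7,6,10,9,8,12,11],
   [2,0,4,1,3,5,8,9,10,6,7,11,12],
   [2,0,4,1,3,5,8,9,10,6,7,12,11],
   [3,0,2,1,4,6,10,8,9,7,5,11,12],
   [3,0,2,1,4,6,10,8,9,7,5,12,11],
   [1,0,4,3,2,6,5,7,9,8,10,11,12],
   [1,0,4,3,2,6,5,7,9,8,10,12,11],
   [4,1,2,0,3,6,9,8,10,5,7,11,12],
   [4,1,2,0,3,6,9,8,10,5,7,12,11],
   [2,3,4,0,1,6,9,7,5,10,8,11,12],
   [2,3,4,0,1,6,9,7,5,10,8,12,11],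
   [0,1,3,4,2,6,7,5,10,8,9,11,12],
   [0,1,3,4,2,6,7,5,10,8,9,12,11],
   [1,0,2,4,3,7,6,5,8,10,9,11,12],
   [1,0,2,4,3,7,6,5,8,10,9,12,11],
   [0,1,4,2,3,7,5,6,9,10,8,11,12],
   [0,1,4,2,3,7,5,6,9,10,8,12,11],
   [4,0,3,1,2,7,9,10,8,5,6,11,12],
   [4,0,3,1,2,7,9,10,8,5,6,12,11],
   [3,2,4,1,0,7,9,6,5,8,10,11,12],
   [3,2,4,1,0,7,9,6,5,8,10,12,11],
   [2,1,3,0,4,7,8,10,9,6,5,11,12],
   [2,1,3,0,4,7,8,10,9,6,5,12,11],
   [2,0,1,3,4,8,9,5,7,10,6,11,12],
   [2,0,1,3,4,8,9,5,7,10,6,12,11],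
   [0,2,3,1,4,8,5,9,6,10,7,11,12],
   [0,2,3,1,4,8,5,9,6,10,7,12,11],
   [3,0,4,2,1,8,6,10,7,5,9,11,12],
   [3,0,4,2,1,8,6,10,7,5,9,12,11],
   [1,2,4,0,3,8,7,10,6,9,5,11,12],
   [1,2,4,0,3,8,7,10,6,9,5,12,11],
   [4,1,3,2,0,8,6,9,5,7,10,11,12],
   [4,1,3,2,0,8,6,9,5,7,10,12,11],
   [2,0,3,4,1,9,5,8,6,7,10,11,12],
   [2,0,3,4,1,9,5,8,6,7,10,12,11],
   [4,0,1,2,3,9,10,7,6,8,5,11,12],
   [4,0,1,2,3,9,10,7,6,8,5,12,11],
   [1,3,4,2,0,9,10,5,8,6,7,11,12],
   [1,3,4,2,0,9,10,5,8,6,7,12,11],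
   [3,1,2,4,0,9,5,10,7,6,8,11,12],
   [3,1,2,4,0,9,5,10,7,6,8,12,11],
   [0,2,4,3,1,9,8,5,10,7,6,11,12],
   [0,2,4,3,1,9,8,5,10,7,6,12,11],
   [0,3,4,1,2,10,6,8,7,9,5,11,12],
   [0,3,4,1,2,10,6,8,7,9,5,12,11],
   [2,1,4,3,0,10,7,8,6,5,9,11,12],
   [2,1,4,3,0,10,7,8,6,5,9,12,11],
   [1,2,3,4,0,10,8,7,9,5,6,11,12],
   [1,2,3,4,0,10,8,7,9,5,6,12,11],
   [3,0,1,4,2,10,8,6,5,9,7,11,12],
   [3,0,1,4,2,10,8,6,5,9,7,12,11],
   [4,0,2,3,1,10,7,9,5,6,8,11,12],
   [4,0,2,3,1,10,7,9,5,6,8,12,11]]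

def pf (l : List Nat) (i : Fin 13) : Fin 13 := Fin.ofNat 13 (l.getD i.val 0)

def T0 : Nat := 2104

/-- Image of a bit mask. -/
def img (l : List Nat) (F : Nat) : Nat :=
  (List.range 13).foldl (fun acc i => if F.testBit i then acc ||| (1 <<< (l.getD i 0)) else acc) 0

def okInj (l : List Nat) : Bool :=
  (List.finRange 13).all fun i => (List.finRange 13).all fun j =>
    (i == j) || !(pf l i == pf l j)

def okPres (l : List Nat) : Bool :=
  facetMasks.all fun F => facetMasks.contains (img l F) &&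
    (List.finRange 13).all fun i => !(F.testBit i.val) || (img l F).testBit (pf l i).val

theorem perms_inj : perms.all okInj = true := by decide +kernel

theorem perms_pres : perms.all okPres = true := by decide +kernel

theorem perms_onto : (facetMasks.all fun F => perms.any fun l =>
    (List.finRange 13).all fun i => !(F.testBit (pf l i).val) || T0.testBit i.val) = true := by
  decide +kernel

theorem perms_avoid : ((List.finRange 13).all fun b => perms.any fun l =>
    (List.finRange 13).all fun i => !(T0.testBit i.val) || !(pf l i == b)) = true := by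
  decide +kernel

/-- The permutation given by an image list. -/
noncomputable def toPerm (l : List Nat) (h : okInj l = true) : Equiv.Perm (Fin 13) :=
  Equiv.ofBijective (pf l) (by
    rw [Finite.injective_iff_bijective.symm]
    intro i j hij
    simp only [okInj, List.all_eq_true, List.mem_finRange, forall_const, Bool.or_eq_true,
      beq_iff_eq, Bool.not_eq_true', beq_eq_false_iff_ne] at h
    rcases h i j with h | h
    · exact h
    · exact absurd hij h)

theorem toPerm_apply (l : List Nat) (h : okInj l = true) (i : Fin 13) :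
    toPerm l h i = pf l i := rfl

theorem apply_inv_self' (σ : Equiv.Perm (Fin 13)) (y : Fin 13) : σ (σ⁻¹ y) = y :=
  Equiv.apply_symm_apply σ y

theorem cx_N0 : Cx N0 := by
  rintro X ⟨F, hF, h⟩ Y hY
  exact ⟨F, hF, fun i hi => h i (hY hi)⟩

/-- The group of permutations preserving the complex. -/
def Gp : Subgroup (Equiv.Perm (Fin 13)) where
  carrier := {σ | ∀ T ∈ N0, T.map σ.toEmbedding ∈ N0}
  mul_mem' := by
    intro a b ha hb T hT
    have := ha _ (hb T hT)
    rw [Finset.map_map] at this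
    exact this
  one_mem' := by
    intro T hT
    have : T.map (Equiv.toEmbedding (1 : Equiv.Perm (Fin 13))) = T := by
      ext i
      simp only [mem_map_equiv]
      rfl
    rw [this]; exact hT
  inv_mem' := by
    intro a ha
    have hpow : ∀ n : ℕ, ∀ T ∈ N0, T.map (a ^ n).toEmbedding ∈ N0 := by
      intro n
      induction n with
      | zero =>
        intro T hT
        have : T.map (Equiv.toEmbedding (a ^ 0)) = T := by
          ext i
          simp only [mem_map_equiv, pow_zero]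
          rfl
        rw [this]; exact hT
      | succ n ih =>
        intro T hT
        have := ha _ (ih T hT)
        rw [Finset.map_map] at this
        rw [pow_succ']
        exact this
    have e : a⁻¹ = a ^ (orderOf a - 1) := by
      have h1 : 0 < orderOf a := orderOf_pos a
      apply inv_eq_of_mul_eq_one_right
      rw [← pow_succ', Nat.sub_add_cancel h1, pow_orderOf_eq_one]
    intro T hT
    rw [e]
    exact hpow _ T hT

theorem mem_Gp {l : List Nat} (hl : l ∈ perms) :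
    toPerm l (List.all_eq_true.mp perms_inj l hl) ∈ Gp := by
  rintro T ⟨F, hF, hT⟩
  have h := List.all_eq_true.mp (List.all_eq_true.mp perms_pres l hl) F hF
  rw [Bool.and_eq_true] at h
  refine ⟨img l F, by simpa using h.1, ?_⟩
  intro i hi
  obtain ⟨j, hj, rfl⟩ := Finset.mem_map.mp hi
  have h2 := List.all_eq_true.mp h.2 j (List.mem_finRange j)
  rw [hT j hj] at h2
  change (img l F).testBit (pf l j).val = true
  simpa using h2

/-- The invariant relation. -/
def rel (g : Gp) (y : Fin 13) : Prop := T0.testBit ((g : Equiv.Perm (Fin 13))⁻¹ y).val = true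

theorem T0_mem : T0 ∈ facetMasks := by decide

theorem dowR_rel : dowR rel = N0 := by
  ext T
  constructor
  · rintro ⟨g, hg⟩
    have h1 : T.map ((g : Equiv.Perm (Fin 13))⁻¹).toEmbedding ∈ N0 := by
      refine ⟨T0, T0_mem, ?_⟩
      intro i hi
      obtain ⟨j, hj, rfl⟩ := Finset.mem_map.mp hi
      exact hg j hj
    have h2 := g.2 _ h1
    rw [Finset.map_map] at h2
    convert h2 using 1
    ext i
    simp
  · rintro ⟨F, hF, hT⟩
    have h := List.all_eq_true.mp perms_onto F hF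
    obtain ⟨l, hl, h⟩ := List.any_eq_true.mp h
    refine ⟨⟨_, mem_Gp hl⟩, ?_⟩
    intro y hy
    have h3 := List.all_eq_true.mp h ((toPerm l (List.all_eq_true.mp perms_inj l hl))⁻¹ y)
      (List.mem_finRange _)
    have h4 : pf l ((toPerm l (List.all_eq_true.mp perms_inj l hl))⁻¹ y) = y := by
      rw [← toPerm_apply l (List.all_eq_true.mp perms_inj l hl), apply_inv_self']
    rw [h4, hT y hy] at h3
    change T0.testBit ((toPerm l (List.all_eq_true.mp perms_inj l hl))⁻¹ y).val = true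
    simpa using h3

theorem linv_rel [DecidableEq Gp] : LInv (dowL rel) := by
  rintro g X ⟨b, hb⟩
  refine ⟨(g : Equiv.Perm (Fin 13)) b, ?_⟩
  intro a ha
  obtain ⟨c, hc, rfl⟩ := Finset.mem_image.mp ha
  have := hb c hc
  unfold rel at this ⊢
  simpa [mul_inv_rev] using this

theorem univ_rel [Fintype Gp] : univ ∉ dowL rel := by
  rintro ⟨b, hb⟩
  have h := List.all_eq_true.mp perms_avoid b (List.mem_finRange b)
  obtain ⟨l, hl, h⟩ := List.any_eq_true.mp h
  have h1 := hb ⟨_, mem_Gp hl⟩ (mem_univ _)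
  have h3 := List.all_eq_true.mp h ((toPerm l (List.all_eq_true.mp perms_inj l hl))⁻¹ b)
      (List.mem_finRange _)
  have h4 : pf l ((toPerm l (List.all_eq_true.mp perms_inj l hl))⁻¹ b) = b := by
    rw [← toPerm_apply l (List.all_eq_true.mp perms_inj l hl), apply_inv_self']
  unfold rel at h1
  rw [h4] at h3
  change T0.testBit ((toPerm l (List.all_eq_true.mp perms_inj l hl))⁻¹ b).val = true at h1
  rw [h1] at h3
  simp at h3

end Pool.Agent.Lead.Ek
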