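import Pool.Agent.Lead.Ek.Phase

/-! # Assembly: from an explicit deformation to a non-evasive invariant complex -/

set_option autoImplicit false

namespace Pool.Agent.Lead.Ek

open Finset

theorem cx_dowL {A B : Type} [DecidableEq A] (r : A → B → Prop) : Cx (dowL r) := by
  rintro X ⟨b, hb⟩ Y hY
  exact ⟨b, fun a ha => hb a (hY ha)⟩

theorem push_push {α β γ : Type} [DecidableEq α] [DecidableEq β] [DecidableEq γ] [Fintype α]
    [Fintype β] [Fintype γ] (s : α ↪ β) (t : β ↪ γ) (K : Set (Finset α)) :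
    push t (push s K) = push (s.trans t) K := by
  ext X
  simp only [push, Set.mem_ofPred_eq]
  constructor
  · rintro ⟨Y, ⟨Z, hZ, rfl⟩, rfl⟩
    exact ⟨Z, hZ, by rw [Finset.map_map]⟩
  · rintro ⟨Z, hZ, rfl⟩
    exact ⟨Z.map s, ⟨Z, hZ, rfl⟩, by rw [Finset.map_map]⟩

/-- Extension of an embedding to a disjoint sum with a small type. -/
theorem exists_extend {α β γ : Type} [DecidableEq α] [DecidableEq β] [DecidableEq γ] [Fintype α]
    [Fintype β] [Fintype γ] (s : α ↪ γ) (h : Fintype.card β ≤ (univ.map s)ᶜ.card) :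
    ∃ t : α ⊕ β ↪ γ, Function.Embedding.inl.trans t = s := by
  obtain ⟨e⟩ : Nonempty (β ↪ {x // x ∈ (univ.map s)ᶜ}) := by
    apply Function.Embedding.nonempty_of_card_le
    rw [Fintype.card_coe]; exact h
  refine ⟨⟨Sum.elim s (fun b => (e b : γ)), ?_⟩, ?_⟩
  · rintro (a | b) (a' | b') hab
    · simp only [Sum.elim_inl] at hab
      rw [s.injective hab]
    · simp only [Sum.elim_inl, Sum.elim_inr] at hab
      have := (e b').2
      rw [← hab] at this
      simp at this
    · simp only [Sum.elim_inl, Sum.elim_inr] at hab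
      have := (e b).2
      rw [hab] at this
      simp at this
    · simp only [Sum.elim_inr] at hab
      rw [e.injective (Subtype.ext hab)]
  · ext x; rfl

theorem exists_invariant_NE (hmain : P6_main) (hred : P2_redMoves) (hdualMv : P3_dualMv)
    (halt : P3_alt) (hblow : P5_blowup) (hdow : P7_dowker)
    {G B : Type} [Group G] [Fintype G] [DecidableEq G] [Fintype B] [DecidableEq B] [Nonempty B]
    (r : G → B → Prop) (hI : LInv (dowL r)) (hu : univ ∉ dowL r) (n : ℕ)
    (hn : Alt n (dowR r)) (hRcx : Cx (dowR r)) :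
    ∃ (G' : Type) (_ : Group G') (_ : Fintype G') (_ : DecidableEq G') (K' : Set (Finset G')),
      Cx K' ∧ LInv K' ∧ ∅ ∈ K' ∧ univ ∉ K' ∧ NE K' univ := by
  classical
  haveI : Nonempty G := ⟨1⟩
  obtain ⟨M, hM, hLM, hRM⟩ := hdow r
  have hLcx : Cx (dowL r) := cx_dowL r
  have h0 : (∅ : Finset G) ∈ dowL r := by
    obtain ⟨b⟩ := ‹Nonempty B›
    exact ⟨b, by simp⟩
  have hpL : Cx (push (Function.Embedding.inl : G ↪ G ⊕ B) (dowL r)) := by
    rintro X ⟨Y, hY, rfl⟩ Z hZ
    obtain ⟨W, hW, rfl⟩ := Finset.subset_map_iff.mp hZ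
    exact ⟨W, hLcx Y hY W hW, rfl⟩
  have hpR : Cx (push (Function.Embedding.inr : B ↪ G ⊕ B) (dowR r)) := by
    rintro X ⟨Y, hY, rfl⟩ Z hZ
    obtain ⟨W, hW, rfl⟩ := Finset.subset_map_iff.mp hZ
    exact ⟨W, hRcx Y hY W hW, rfl⟩
  -- the chain on `G ⊕ B`
  have h1 : Alt n (push (Function.Embedding.inr : B ↪ G ⊕ B) (dowR r)) := (halt _ n _ hn).1
  have h2 : Alt (n + 1) (dual M) := by
    refine Alt.succ n _ _ (hdualMv 0 0 _ _ hpR hRM) ?_
    rwa [dual_dual]
  have h3 : Alt (n + 2) (push (Function.Embedding.inl : G ↪ G ⊕ B) (dowL r)) :=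
    Alt.succ (n + 1) _ _ hLM h2
  -- blow up
  obtain ⟨G', i1, i2, i3, K', s, hK', hI', hb, hc, hs, hR⟩ :=
    hblow (max 3 (Fintype.card B)) G (dowL r) hLcx hI h0 hu
  obtain ⟨t, ht⟩ := exists_extend (β := B) s (le_trans (le_max_right _ _) hc)
  have h4 : Alt (n + 2) (push s (dowL r)) := by
    have := (halt t (n + 2) _ h3).1
    rwa [push_push, ht] at this
  have hrestr : restr K' (univ.map s) = push s (dowL r) := by
    ext X
    simp only [restr, push, Set.mem_ofPred_eq]
    constructor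
    · rintro ⟨h1, h2⟩
      obtain ⟨Y, -, rfl⟩ := Finset.subset_map_iff.mp h2
      exact ⟨Y, (hs Y).mp h1, rfl⟩
    · rintro ⟨Y, hY, rfl⟩
      exact ⟨(hs Y).mpr hY, Finset.map_subset_map.mpr (subset_univ _)⟩
  have hrestru : restr K' univ = K' := by
    ext X; simp [restr]
  have hb3 : ∀ X ∈ K', 3 ≤ Xᶜ.card := fun X hX => le_trans (le_max_left _ _) (hb X hX)
  have hcoll : MvStar 0 3 (push s (dowL r)) K' := by
    have := hred 3 K' univ (univ.map s) hK' hb3 (subset_univ _) hR
    rwa [hrestr, hrestru] at this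
  have hpush : Cx (push s (dowL r)) := by
    rw [← hrestr]
    rintro X ⟨h1, h2⟩ Y hY
    exact ⟨hK' X h1 Y hY, hY.trans h2⟩
  have h5 : Alt3 (n + 3) (dual K') := by
    refine ⟨dual (push s (dowL r)), hdualMv 0 3 _ _ hpush hcoll, ?_⟩
    rwa [dual_dual]
  have h0' : (∅ : Finset G') ∈ K' := by
    have := (hs ∅).mpr h0
    simpa using this
  have hu' : (univ : Finset G') ∉ K' := by
    intro h
    have := hb3 _ h
    simp at this
  exact hmain (n + 3) G' (dual K') (cx_dual hK') (linv_dual hI') (by simpa [dual] using hu')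
    (by simpa [dual] using h0') h5

end Pool.Agent.Lead.Ek
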