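import Mathlib
import Pool.Agent.Helper22.Evas.Depth

/-! # Simple homotopy moves and non-evasive transitive complexes: definitions and packet statements

All complexes are sets of finite sets on a type `α : Type` with decidable equality (and `Fintype`
when needed).  A complex may be void.  `NE K R` is non-evasiveness of `X ↦ (X ∈ K)` on `R`. -/

set_option autoImplicit false

namespace Pool.Agent.Lead.Ek

open Finset

section Basic

variable {α : Type} [DecidableEq α]

/-- `NE K R`: the membership function `X ↦ (X ∈ K)` of subsets `X` of `R` has a decision tree that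
never asks all the elements of `R`. -/
inductive NE : Set (Finset α) → Finset α → Prop
  | irr (K : Set (Finset α)) (R : Finset α) (x : α) (hx : x ∈ R)
      (h : ∀ X : Finset α, X ⊆ R.erase x → (X ∈ K ↔ insert x X ∈ K)) : NE K R
  | split (K : Set (Finset α)) (R : Finset α) (x : α) (hx : x ∈ R)
      (h0 : NE K (R.erase x)) (h1 : NE {X : Finset α | insert x X ∈ K} (R.erase x)) : NE K R

/-- Simplicial complex (possibly void): closed under subsets. -/
def Cx (K : Set (Finset α)) : Prop := ∀ X ∈ K, ∀ Y ⊆ X, Y ∈ K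

/-- The induced subcomplex on `R`. -/
def restr (K : Set (Finset α)) (R : Finset α) : Set (Finset α) := {X | X ∈ K ∧ X ⊆ R}

/-- `Red K R R0`: the vertices of `R \ R0` can be deleted one after the other, every deleted vertex
having a non-evasive link at that moment. -/
inductive Red (K : Set (Finset α)) : Finset α → Finset α → Prop
  | refl (R : Finset α) : Red K R R
  | step (R R0 : Finset α) (x : α) (hx : x ∈ R) (hx0 : x ∉ R0)
      (h : NE {X : Finset α | insert x X ∈ K} (R.erase x)) (h' : Red K (R.erase x) R0) :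
      Red K R R0

end Basic

section Moves

variable {α : Type} [DecidableEq α] [Fintype α]

/-- Elementary expansion `K ↗ L` by the pair `τ, τ + v`, with `|τ| ≥ a` and with at least `b`
elements outside `τ + v`. -/
def Mv (a b : ℕ) (K L : Set (Finset α)) : Prop :=
  ∃ (τ : Finset α) (v : α), v ∉ τ ∧ a ≤ τ.card ∧ b ≤ (insert v τ)ᶜ.card ∧
    τ ∉ K ∧ insert v τ ∉ K ∧ (∀ t ∈ τ, insert v (τ.erase t) ∈ K) ∧ L = K ∪ {τ, insert v τ}

/-- Chains of elementary expansions. -/
def MvStar (a b : ℕ) : Set (Finset α) → Set (Finset α) → Prop := Relation.ReflTransGen (Mv a b)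

/-- Alexander dual. -/
def dual (K : Set (Finset α)) : Set (Finset α) := {X | Xᶜ ∉ K}

/-- `Alt n K`: an `n`-phase sequence (expansions, dualise, expansions, dualise, ...) from `K` to a
non-evasive complex. -/
inductive Alt : ℕ → Set (Finset α) → Prop
  | zero (K : Set (Finset α)) (h : NE K univ) : Alt 0 K
  | succ (n : ℕ) (K L : Set (Finset α)) (h : MvStar 0 0 K L) (h' : Alt n (dual L)) :
      Alt (n + 1) K

/-- The same, the moves of the first phase having `|τ| ≥ 3`. -/
def Alt3 (n : ℕ) (K : Set (Finset α)) : Prop :=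
  match n with
  | 0 => NE K univ
  | m + 1 => ∃ L : Set (Finset α), MvStar 3 0 K L ∧ Alt m (dual L)

end Moves

section Transport

variable {α β : Type} [DecidableEq α] [DecidableEq β] [Fintype α] [Fintype β]

/-- Image of a complex; the elements outside the range are no vertices. -/
def push (s : α ↪ β) (K : Set (Finset α)) : Set (Finset β) := {X | ∃ Y ∈ K, X = Y.map s}

/-- The dual construction: everything not containing all outside elements is a face. -/
def plus (s : α ↪ β) (K : Set (Finset α)) : Set (Finset β) :=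
  {X | (univ.map s)ᶜ ⊆ X → X.preimage s s.injective.injOn ∈ K}

end Transport

/-- Left invariance. -/
def LInv {G : Type} [Group G] [DecidableEq G] (K : Set (Finset G)) : Prop :=
  ∀ g : G, ∀ X ∈ K, X.image (fun x => g * x) ∈ K

/-! ## Packet statements -/

/-- P1: basic facts on `NE` and `Red`. -/
def P1_congr : Prop := ∀ {α : Type} [DecidableEq α] (K L : Set (Finset α)) (R : Finset α),
  (∀ X ⊆ R, (X ∈ K ↔ X ∈ L)) → NE K R → NE L R

def P1_query : Prop := ∀ {α : Type} [DecidableEq α] (K : Set (Finset α)) (R Q : Finset α),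
  Q ⊆ R → (∀ Y ⊆ Q, NE {X : Finset α | X ∪ Y ∈ K} (R \ Q)) → NE K R

def P1_map : Prop := ∀ {α β : Type} [DecidableEq α] [DecidableEq β] (s : α ↪ β)
  (K : Set (Finset α)) (K' : Set (Finset β)) (R : Finset α),
  (∀ X ⊆ R, (X.map s ∈ K' ↔ X ∈ K)) → NE K R → NE K' (R.map s)

def P1_compl : Prop := ∀ {α : Type} [DecidableEq α] (K : Set (Finset α)) (R : Finset α),
  NE K R → NE {X : Finset α | R \ X ∉ K} R

def P1_dual : Prop := ∀ {α : Type} [DecidableEq α] [Fintype α] (K : Set (Finset α)),
  NE K univ → NE (dual K) univ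

def P1_redNE : Prop := ∀ {α : Type} [DecidableEq α] (K : Set (Finset α)) (R R0 : Finset α),
  Red K R R0 → NE K R0 → NE K R

def P1_redMap : Prop := ∀ {α β : Type} [DecidableEq α] [DecidableEq β] (s : α ↪ β)
  (K : Set (Finset α)) (K' : Set (Finset β)) (R R0 : Finset α),
  (∀ X ⊆ R, (X.map s ∈ K' ↔ X ∈ K)) → Red K R R0 → Red K' (R.map s) (R0.map s)

def P1_redTrans : Prop := ∀ {α : Type} [DecidableEq α] (K : Set (Finset α)) (R R1 R0 : Finset α),
  Red K R R1 → Red K R1 R0 → R0 ⊆ R1 → Red K R R0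

/-- P1 (link to helper22's library). -/
def P1_depth : Prop := ∀ {α : Type} [DecidableEq α] [Fintype α] (K : Set (Finset α))
  [DecidablePred (· ∈ K)], NE K univ →
  Pool.Agent.Helper22.Evas.Depth (Fintype.card α - 1)
    (fun x : α → Bool => decide (univ.filter (fun i => x i = true) ∉ K))

/-- P2: an NE link gives elementary moves. -/
def P2_neMoves : Prop := ∀ {α : Type} [DecidableEq α] [Fintype α] (b : ℕ) (K : Set (Finset α))
  (R S : Finset α), Cx K → Disjoint R S → (∀ X ∈ K, S ⊆ X → X ⊆ S ∪ R) →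
  (∀ X ∈ K, b ≤ Xᶜ.card) → NE {X : Finset α | X ∪ S ∈ K} R →
  MvStar 0 b (K \ {X | S ⊆ X}) K

def P2_redMoves : Prop := ∀ {α : Type} [DecidableEq α] [Fintype α] (b : ℕ) (K : Set (Finset α))
  (R R0 : Finset α), Cx K → (∀ X ∈ K, b ≤ Xᶜ.card) → R0 ⊆ R → Red K R R0 →
  MvStar 0 b (restr K R0) (restr K R)

/-- P3: duality and transport. -/
def P3_cx : Prop := ∀ {α : Type} [DecidableEq α] [Fintype α] (a b : ℕ) (K L : Set (Finset α)),
  Cx K → MvStar a b K L → Cx L

def P3_cxDual : Prop := ∀ {α : Type} [DecidableEq α] [Fintype α] (K : Set (Finset α)),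
  Cx K → Cx (dual K)

def P3_dualMv : Prop := ∀ {α : Type} [DecidableEq α] [Fintype α] (a b : ℕ)
  (K L : Set (Finset α)), Cx K → MvStar a b K L → MvStar b a (dual L) (dual K)

def P3_dualPush : Prop := ∀ {α β : Type} [DecidableEq α] [DecidableEq β] [Fintype α] [Fintype β]
  (s : α ↪ β) (K : Set (Finset α)), dual (push s K) = plus s (dual K)

def P3_dualPlus : Prop := ∀ {α β : Type} [DecidableEq α] [DecidableEq β] [Fintype α] [Fintype β]
  (s : α ↪ β) (K : Set (Finset α)), dual (plus s K) = push s (dual K)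

def P3_plusMv : Prop := ∀ {α β : Type} [DecidableEq α] [DecidableEq β] [Fintype α] [Fintype β]
  (s : α ↪ β) (a b : ℕ) (K L : Set (Finset α)), MvStar a b K L →
  MvStar (a + (univ.map s)ᶜ.card) b (plus s K) (plus s L)

def P3_pushMv : Prop := ∀ {α β : Type} [DecidableEq α] [DecidableEq β] [Fintype α] [Fintype β]
  (s : α ↪ β) (a b : ℕ) (K L : Set (Finset α)), MvStar a b K L →
  MvStar a (b + (univ.map s)ᶜ.card) (push s K) (push s L)

def P3_pushNE : Prop := ∀ {α β : Type} [DecidableEq α] [DecidableEq β] [Fintype α] [Fintype β]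
  (s : α ↪ β) (K : Set (Finset α)), NE K univ → NE (push s K) univ

def P3_plusNE : Prop := ∀ {α β : Type} [DecidableEq α] [DecidableEq β] [Fintype α] [Fintype β]
  (s : α ↪ β) (K : Set (Finset α)), NE K univ → NE (plus s K) univ

/-- By simultaneous induction on the number of phases. -/
def P3_alt : Prop := ∀ {α β : Type} [DecidableEq α] [DecidableEq β] [Fintype α] [Fintype β]
  (s : α ↪ β) (n : ℕ) (K : Set (Finset α)), Alt n K → Alt n (push s K) ∧ Alt n (plus s K)

/-- P4: the expansion step (helper76). -/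
def P4_EStep : Prop := ∀ (G : Type) [Group G] [Fintype G] [DecidableEq G]
  (K L : Set (Finset G)), Cx K → LInv K → ∅ ∈ K → univ ∉ K → Mv 3 0 K L →
  ∃ (G' : Type) (_ : Group G') (_ : Fintype G') (_ : DecidableEq G')
    (K' : Set (Finset G')) (s : G ↪ G'),
    Cx K' ∧ LInv K' ∧ (∀ X ∈ K', 3 ≤ Xᶜ.card) ∧ 3 ≤ (univ.map s)ᶜ.card ∧
    (∀ X : Finset G, X.map s ∈ K' ↔ X ∈ L) ∧ Red K' univ (univ.map s)

/-- P5a: the blow-up (no move), with as many outside elements as we want. -/
def P5_blowup : Prop := ∀ (c : ℕ) (G : Type) [Group G] [Fintype G] [DecidableEq G]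
  (K : Set (Finset G)), Cx K → LInv K → ∅ ∈ K → univ ∉ K →
  ∃ (G' : Type) (_ : Group G') (_ : Fintype G') (_ : DecidableEq G')
    (K' : Set (Finset G')) (s : G ↪ G'),
    Cx K' ∧ LInv K' ∧ (∀ X ∈ K', c ≤ Xᶜ.card) ∧ c ≤ (univ.map s)ᶜ.card ∧
    (∀ X : Finset G, X.map s ∈ K' ↔ X ∈ K) ∧ Red K' univ (univ.map s)

/-- P5b: the expansion phase, from P4, P5a and P1. -/
def P5_EPhase : Prop := ∀ (G : Type) [Group G] [Fintype G] [DecidableEq G]
  (K L : Set (Finset G)), Cx K → LInv K → ∅ ∈ K → univ ∉ K → MvStar 3 0 K L →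
  ∃ (G' : Type) (_ : Group G') (_ : Fintype G') (_ : DecidableEq G')
    (K' : Set (Finset G')) (s : G ↪ G'),
    Cx K' ∧ LInv K' ∧ (∀ X ∈ K', 3 ≤ Xᶜ.card) ∧ 3 ≤ (univ.map s)ᶜ.card ∧
    (∀ X : Finset G, X.map s ∈ K' ↔ X ∈ L) ∧ Red K' univ (univ.map s)

/-- P6: the phase induction (lead). -/
def P6_main : Prop := ∀ (n : ℕ) (G : Type) [Group G] [Fintype G] [DecidableEq G]
  (K : Set (Finset G)), Cx K → LInv K → ∅ ∈ K → univ ∉ K → Alt3 n K →
  ∃ (G' : Type) (_ : Group G') (_ : Fintype G') (_ : DecidableEq G') (K' : Set (Finset G')),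
    Cx K' ∧ LInv K' ∧ ∅ ∈ K' ∧ univ ∉ K' ∧ NE K' univ

/-- The two Dowker complexes of a relation and their common expansion. -/
def dowL {A B : Type} (r : A → B → Prop) : Set (Finset A) := {S | ∃ b, ∀ a ∈ S, r a b}

def dowR {A B : Type} (r : A → B → Prop) : Set (Finset B) := {T | ∃ a, ∀ b ∈ T, r a b}

/-- P7: Dowker duality by elementary moves, on `A ⊕ B`. -/
def P7_dowker : Prop := ∀ {A B : Type} [DecidableEq A] [DecidableEq B] [Fintype A] [Fintype B]
  [Nonempty A] [Nonempty B] (r : A → B → Prop),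
  ∃ M : Set (Finset (A ⊕ B)), Cx M ∧
    MvStar 0 0 (push Function.Embedding.inl (dowL r)) M ∧
    MvStar 0 0 (push Function.Embedding.inr (dowR r)) M

end Pool.Agent.Lead.Ek
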