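import Pool.Agent.Lead.Ek.Assembly
import Pool.Agent.Helper95.Ek.P1
import Pool.Agent.Helper58.Ek.Moves
import Pool.Agent.Helper61.Ek.P3
import Pool.Agent.Helper61.Ek.EStep
import Pool.Agent.Helper61.Ek.EPhase
import Pool.Agent.Helper93.Ek.Blowup
import Pool.Agent.Helper69.Ek.Dowker

/-! # Unconditional form of the main theorem -/

set_option autoImplicit false

namespace Pool.Agent.Lead.Ek

open Finset

/-- Phase induction without hypotheses. -/
theorem main : P6_main :=
  phase_main Helper95.Ek.map Helper95.Ek.redNE Helper95.Ek.dual Helper58.Ek.redMoves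
    Helper61.Ek.p3_cx Helper61.Ek.p3_dualMv Helper61.Ek.p3_dualPush Helper61.Ek.p3_plusMv
    Helper61.Ek.p3_alt (Helper61.Ek.P5_EPhase_of Helper61.Ek.P4_EStep_proof Helper93.Ek.blowup)

/-- If a Dowker complex of an invariant relation deforms to a non-evasive complex, there is an
invariant non-evasive complex on a finite group. -/
theorem exists_invariant_NE' {G B : Type} [Group G] [Fintype G] [DecidableEq G] [Fintype B]
    [DecidableEq B] [Nonempty B] (r : G → B → Prop) (hI : LInv (dowL r)) (hu : univ ∉ dowL r)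
    (n : ℕ) (hn : Alt n (dowR r)) (hRcx : Cx (dowR r)) :
    ∃ (G' : Type) (_ : Group G') (_ : Fintype G') (_ : DecidableEq G') (K' : Set (Finset G')),
      Cx K' ∧ LInv K' ∧ ∅ ∈ K' ∧ univ ∉ K' ∧ NE K' univ :=
  exists_invariant_NE main Helper58.Ek.redMoves Helper61.Ek.p3_dualMv Helper61.Ek.p3_alt
    Helper93.Ek.blowup Helper69.Ek.dowker r hI hu n hn hRcx

end Pool.Agent.Lead.Ek
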