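import Pool.Agent.Lead.Ek.Defs

/-! # The phase induction -/

set_option autoImplicit false

namespace Pool.Agent.Lead.Ek

open Finset

theorem dual_dual {α : Type} [DecidableEq α] [Fintype α] (K : Set (Finset α)) :
    dual (dual K) = K := by
  ext X
  simp [dual]

theorem cx_dual {α : Type} [DecidableEq α] [Fintype α] {K : Set (Finset α)} (h : Cx K) :
    Cx (dual K) := by
  intro X hX Y hY
  simp only [dual, Set.mem_ofPred_eq] at hX ⊢
  intro hYc
  exact hX (h _ hYc _ (Finset.compl_subset_compl.mpr hY))

theorem linv_dual {G : Type} [Group G] [DecidableEq G] [Fintype G] {K : Set (Finset G)}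
    (h : LInv K) : LInv (dual K) := by
  intro g X hX
  simp only [dual, Set.mem_ofPred_eq] at hX ⊢
  intro hc
  apply hX
  have := h g⁻¹ _ hc
  have e : ((X.image fun x => g * x)ᶜ).image (fun x => g⁻¹ * x) = Xᶜ := by
    ext y
    simp only [mem_image, mem_compl]
    constructor
    · rintro ⟨z, hz, rfl⟩ hy
      exact hz ⟨g⁻¹ * z, hy, by group⟩
    · intro hy
      refine ⟨g * y, ?_, by group⟩
      rintro ⟨w, hw, hwy⟩
      have : w = y := mul_left_cancel hwy
      exact hy (this ▸ hw)
  rwa [e] at this

theorem mvStar_mono {α : Type} [DecidableEq α] [Fintype α] {a b a' b' : ℕ} (ha : a' ≤ a)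
    (hb : b' ≤ b) {K L : Set (Finset α)} (h : MvStar a b K L) : MvStar a' b' K L := by
  induction h with
  | refl => exact Relation.ReflTransGen.refl
  | tail _ h2 ih =>
    obtain ⟨τ, v, h1, h2, h3, h4⟩ := h2
    exact ih.tail ⟨τ, v, h1, ha.trans h2, hb.trans h3, h4⟩

/-- `Alt` with a constrained first phase, after a push/plus. -/
theorem phase_main (hmap : P1_map) (hredNE : P1_redNE) (hdualNE : P1_dual)
    (hred : P2_redMoves) (hcx : P3_cx) (hdualMv : P3_dualMv) (hdp : P3_dualPush)
    (hplusMv : P3_plusMv) (halt : P3_alt) (hE : P5_EPhase) : P6_main := by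
  intro n
  induction n with
  | zero =>
    intro G _ _ _ K hK hI h0 hu h
    exact ⟨G, inferInstance, inferInstance, inferInstance, K, hK, hI, h0, hu, h⟩
  | succ n ih =>
    intro G _ _ _ K hK hI h0 hu h
    obtain ⟨L, hKL, hL⟩ := h
    obtain ⟨G', i1, i2, i3, K', s, hK', hI', hb, hc, hs, hR⟩ := hE G K L hK hI h0 hu hKL
    have hLcx : Cx L := hcx 3 0 K L hK hKL
    have h0L : (∅ : Finset G) ∈ L := by
      have : MvStar 3 0 K L := hKL
      clear hL hs hR hLcx hKL
      induction this with
      | refl => exact h0
      | tail _ h2 ih2 =>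
        obtain ⟨τ, v, _, _, _, _, _, _, rfl⟩ := h2
        exact Or.inl ih2
    have h0' : (∅ : Finset G') ∈ K' := by
      have := (hs ∅).mpr h0L
      simpa using this
    have hu' : (univ : Finset G') ∉ K' := by
      intro h
      have := hb _ h
      simp at this
    -- restriction of `K'` to the range is `push s L`
    have hrestr : restr K' (univ.map s) = push s L := by
      ext X
      simp only [restr, push, Set.mem_ofPred_eq]
      constructor
      · rintro ⟨h1, h2⟩
        obtain ⟨Y, -, rfl⟩ := Finset.subset_map_iff.mp h2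
        exact ⟨Y, (hs Y).mp h1, rfl⟩
      · rintro ⟨Y, hY, rfl⟩
        exact ⟨(hs Y).mpr hY, Finset.map_subset_map.mpr (subset_univ _)⟩
    have hrestru : restr K' univ = K' := by
      ext X; simp [restr]
    have hcoll : MvStar 0 3 (push s L) K' := by
      have := hred 3 K' univ (univ.map s) hK' hb (subset_univ _) hR
      rwa [hrestr, hrestru] at this
    have hpushcx : Cx (push s L) := by
      rw [← hrestr]
      rintro X ⟨h1, h2⟩ Y hY
      exact ⟨hK' X h1 Y hY, hY.trans h2⟩
    have hcoll' : MvStar 3 0 (dual K') (dual (push s L)) :=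
      hdualMv 0 3 _ _ hpushcx hcoll
    cases n with
    | zero =>
      -- `L` is non-evasive
      cases hL with
      | zero _ hNE =>
      have hNE' : NE L univ := by
        have := hdualNE (dual L) hNE
        rwa [dual_dual] at this
      refine ⟨G', i1, i2, i3, K', hK', hI', h0', hu', ?_⟩
      refine hredNE K' univ (univ.map s) hR ?_
      exact hmap s L K' univ (fun X _ => hs X) hNE'
    | succ m =>
      cases hL with
      | succ _ _ L2 hLL2 hL2 =>
      have h1 : MvStar 3 0 (plus s (dual L)) (plus s L2) :=
        mvStar_mono (by omega) le_rfl (hplusMv s 0 0 _ _ hLL2)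
      have h2 : MvStar 3 0 (dual K') (plus s L2) := by
        rw [hdp] at hcoll'
        exact hcoll'.trans h1
      have h3 : Alt m (dual (plus s L2)) := by
        have e : dual (plus s L2) = push s (dual L2) := by
          have := hdp s (dual L2)
          rw [dual_dual] at this
          rw [← this, dual_dual]
        rw [e]
        exact (halt s m _ hL2).1
      exact ih G' (dual K') (cx_dual hK') (linv_dual hI') (by simpa [dual] using hu')
        (by simpa [dual] using h0') ⟨plus s L2, h2, h3⟩

end Pool.Agent.Lead.Ek
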